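import Pool.Agent.Helper787.RMEnd

/-!
Real morsifications with all critical points real do not always exist.

For `c > 1` close to `1` the real cubic form in seven variables
`f = 2 Re(z1^3 + z2^3 + z3^3) + r^3 - c (2 Re(z1 + z2 + z3) + r)^3` (`z1, z2, z3` complex, `r` real)
has an isolated complex critical point at `0`, and every real deformation `f_t` of `f` has, for all
sufficiently small `t > 0`, fewer than `mu` real nondegenerate critical points near `0`.

Idea: for `c = 1` the complexified cubic (a form of the cubic `sum y_i^3 = 0`, `sum y_i = 0` in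
eight coordinates) has 35 nodes at infinity, 32 of which are not real for the chosen real structure,
and these 32 impose independent conditions on all quadratic and linear perturbations modulo
translations. So, for `c` close to `1`, every nontrivial perturbation has a critical point far away
in the direction of a non-real node; this critical point is not real.
-/

open Filter Topology Metric RealMorsification

namespace Pool.Agent.Results.MP_2aa512_ag.NoRealMorsification

/-- There is `c0 > 1` such that for all `c` with `1 < c < c0` the germ `germ c` is a real analytic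
germ with an isolated complex critical point and finite Milnor number `μ > 0`, and every real
deformation of it has, in every closed ball about `0` inside its domain and for all sufficiently
small `t > 0`, fewer than `μ` real Morse critical points; in particular it has no real deformation
with exactly `μ` critical points, all real and nondegenerate. -/
theorem result :
    ∃ c0 : ℝ, 1 < c0 ∧ ∀ c : ℝ, 1 < c → c < c0 →
      IsIsolatedCritical (germ c) ∧
      Module.Finite ℂ (Conv 7 ⧸ jacobianIdeal (germ c)) ∧ 0 < milnor (germ c) ∧
      (∀ (D : RealDeformation (germ c)) (ρ : ℝ), 0 < ρ → ρ < D.r →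
        ∀ᶠ t in 𝓝[>] (0 : ℝ), (realMorse (D.F t) (eball 7 ρ)).encard < milnor (germ c)) ∧
      ¬ HasRealMorsification (germ c) := by
  obtain ⟨c0, hc0, hc⟩ := RM.exists_c
  refine ⟨c0, hc0, fun c h1 h2 => ?_⟩
  have hH := hc c h1 h2
  have hmil := RM.milnor_poly c h1
  have hfew : ∀ (D : RealDeformation (germ c)) (ρ : ℝ), 0 < ρ → ρ < D.r →
      ∀ᶠ t in 𝓝[>] (0 : ℝ), (realMorse (D.F t) (eball 7 ρ)).encard < milnor (germ c) :=
    fun D ρ hρ hρr => RM.few_real c h1 hH D ρ hρ hρr
  refine ⟨⟨?_, (RM.poly_crit c h1 0).2 rfl, ?_⟩, hmil.1, hmil.2, hfew, ?_⟩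
  · simp [cx, germ]
  · exact Filter.Eventually.of_forall fun z hz => (RM.poly_crit c h1 z).1 hz
  · rintro ⟨D, ρ, hρ, hρr, hev⟩
    obtain ⟨t, ht1, ht2⟩ := ((hfew D ρ hρ hρr).and hev).exists
    have hsub : critSet (D.F t) (eball 7 ρ) ⊆ realMorse (D.F t) (eball 7 ρ) :=
      fun z hz => ⟨hz.1, hz.2, (ht2.2 z hz).1, (ht2.2 z hz).2⟩
    have hfin : (critSet (D.F t) (eball 7 ρ)).Finite := by
      apply Set.finite_of_ncard_pos
      rw [ht2.1]
      exact hmil.2
    have h3 : (critSet (D.F t) (eball 7 ρ)).encard = milnor (germ c) := by
      rw [← hfin.cast_ncard_eq, ht2.1]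
    have h4 := (Set.encard_le_encard hsub).trans_lt ht1
    rw [h3] at h4
    exact lt_irrefl _ h4

end Pool.Agent.Results.MP_2aa512_ag.NoRealMorsification
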